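import Pool.Agent.MP_9fd5aa_lc.Defs

-- part MP_9fd5aa_lc.Tukey
section

/-! Relational systems, Tukey connections and the localization system. -/

namespace Pool.Agent.MP_9fd5aa_lc

open Cardinal Set Filter

/-- Tukey (Galois) connection from `r` to `r'`. -/
def Tuk {X Y X' Y' : Type} (r : X → Y → Prop) (r' : X' → Y' → Prop) : Prop :=
  ∃ (m : X → X') (p : Y' → Y), ∀ x y', r' (m x) y' → r x (p y')

theorem Tuk.trans {X Y X' Y' X'' Y'' : Type} {r : X → Y → Prop} {r' : X' → Y' → Prop}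
    {r'' : X'' → Y'' → Prop} (h : Tuk r r') (h' : Tuk r' r'') : Tuk r r'' := by
  obtain ⟨m, p, h⟩ := h
  obtain ⟨m', p', h'⟩ := h'
  exact ⟨m' ∘ m, p ∘ p', fun x y hxy => h _ _ (h' _ _ hxy)⟩

/-- every family of size below `κ` is bounded -/
def Bdd {X Y : Type} (r : X → Y → Prop) (κ : Cardinal) : Prop :=
  ∀ F : Set X, #F < κ → ∃ y, ∀ x ∈ F, r x y

/-- there is a dominating family of size at most `κ` -/
def Dom {X Y : Type} (r : X → Y → Prop) (κ : Cardinal) : Prop :=
  ∃ D : Set Y, #D ≤ κ ∧ ∀ x, ∃ y ∈ D, r x y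

theorem Tuk.bdd {X Y X' Y' : Type} {r : X → Y → Prop} {r' : X' → Y' → Prop} (h : Tuk r r')
    {κ : Cardinal} (hb : Bdd r' κ) : Bdd r κ := by
  obtain ⟨m, p, h⟩ := h
  intro F hF
  obtain ⟨y, hy⟩ := hb (m '' F) (mk_image_le.trans_lt hF)
  exact ⟨p y, fun x hx => h _ _ (hy _ (mem_image_of_mem m hx))⟩

theorem Tuk.dom {X Y X' Y' : Type} {r : X → Y → Prop} {r' : X' → Y' → Prop} (h : Tuk r r')
    {κ : Cardinal} (hd : Dom r' κ) : Dom r κ := by
  obtain ⟨m, p, h⟩ := h
  obtain ⟨D, hD, hd⟩ := hd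
  refine ⟨p '' D, mk_image_le.trans hD, fun x => ?_⟩
  obtain ⟨y, hy, hxy⟩ := hd (m x)
  exact ⟨p y, mem_image_of_mem p hy, h _ _ hxy⟩

theorem Bdd.mono {X Y : Type} {r : X → Y → Prop} {κ κ' : Cardinal} (h : Bdd r κ) (hκ : κ' ≤ κ) :
    Bdd r κ' := fun F hF => h F (hF.trans_le hκ)

theorem Dom.mono {X Y : Type} {r : X → Y → Prop} {κ κ' : Cardinal} (h : Dom r κ) (hκ : κ ≤ κ') :
    Dom r κ' := by
  obtain ⟨D, hD, h⟩ := h
  exact ⟨D, hD.trans hκ, h⟩

theorem bdd_bnum {X Y : Type} (r : X → Y → Prop) : Bdd r (bnum r) := fun F hF => by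
  by_contra h
  exact absurd (csInf_le' ⟨F, h, rfl⟩ : bnum r ≤ #F) (not_le.2 hF)

theorem le_bnum {X Y : Type} {r : X → Y → Prop} (h0 : ∀ y, ∃ x, ¬ r x y) {κ : Cardinal}
    (h : Bdd r κ) : κ ≤ bnum r := by
  refine le_csInf ⟨_, univ, fun ⟨y, hy⟩ => (h0 y).elim fun x hx => hx (hy x trivial), rfl⟩ ?_
  rintro c ⟨F, hF, rfl⟩
  exact not_lt.1 fun hlt => hF (h F hlt)

theorem dom_dnum {X Y : Type} {r : X → Y → Prop} (h0 : ∀ x, ∃ y, r x y) : Dom r (dnum r) := by
  obtain ⟨D, hD, hc⟩ := csInf_mem (s := {c | ∃ D : Set Y, (∀ x, ∃ y ∈ D, r x y) ∧ #D = c})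
    ⟨_, univ, fun x => (h0 x).imp fun y hy => ⟨trivial, hy⟩, rfl⟩
  exact ⟨D, hc.le, hD⟩

theorem dnum_le {X Y : Type} {r : X → Y → Prop} {κ : Cardinal} (h : Dom r κ) : dnum r ≤ κ := by
  obtain ⟨D, hD, h⟩ := h
  exact (csInf_le' ⟨D, h, rfl⟩ : dnum r ≤ #D).trans hD

/-- sequential composition -/
theorem Bdd.seq {X Y X' Y' : Type} {r : X → Y → Prop} {r' : X' → Y' → Prop} {κ : Cardinal}
    (m : X → X') (h : Bdd r' κ) (h' : ∀ y', Bdd (fun x y => r' (m x) y' → r x y) κ) : Bdd r κ := by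
  intro F hF
  obtain ⟨y', hy'⟩ := h (m '' F) (mk_image_le.trans_lt hF)
  obtain ⟨y, hy⟩ := h' y' F hF
  exact ⟨y, fun x hx => hy x hx (hy' _ (mem_image_of_mem m hx))⟩

theorem Dom.seq {X Y X' Y' : Type} {r : X → Y → Prop} {r' : X' → Y' → Prop} {κ : Cardinal}
    (hκ : ℵ₀ ≤ κ) (m : X → X') (h : Dom r' κ)
    (h' : ∀ y', Dom (fun x y => r' (m x) y' → r x y) κ) : Dom r κ := by
  obtain ⟨D, hD, h⟩ := h
  choose S hS h' using h'
  refine ⟨⋃ g : D, S g, (mk_iUnion_le _).trans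
    ((mul_le_mul' hD (ciSup_le' fun g => hS _)).trans (mul_eq_self hκ).le), fun x => ?_⟩
  obtain ⟨g, hg, hx⟩ := h (m x)
  obtain ⟨y, hy, hxy⟩ := h' g x
  exact ⟨y, mem_iUnion.2 ⟨⟨g, hg⟩, hy⟩, hxy hx⟩

/-- inclusion on an ideal -/
def sub (I : Set (Set (ℕ → Bool))) (A B : I) : Prop := (A : Set (ℕ → Bool)) ⊆ B

theorem bdd_addI (I : Set (Set (ℕ → Bool))) : Bdd (sub I) (addI I) := by
  intro F hF
  by_cases h : ⋃₀ (Subtype.val '' F) ∈ I
  · exact ⟨⟨_, h⟩, fun x hx => subset_sUnion_of_mem (mem_image_of_mem _ hx)⟩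
  · exfalso
    have : addI I ≤ #(Subtype.val '' F) :=
      csInf_le' ⟨_, by rintro _ ⟨A, -, rfl⟩; exact A.2, h, rfl⟩
    exact absurd (this.trans mk_image_le) (not_le.2 hF)

theorem le_addI (I : Set (Set (ℕ → Bool))) (hdown : ∀ A ∈ I, ∀ B ⊆ A, B ∈ I)
    (hsing : ∀ x, {x} ∈ I) (huniv : Set.univ ∉ I) {κ : Cardinal} (h : Bdd (sub I) κ) :
    κ ≤ addI I := by
  have hne : {c | ∃ F : Set (Set (ℕ → Bool)), F ⊆ I ∧ ⋃₀ F ∉ I ∧ #F = c}.Nonempty := by
    refine ⟨_, range singleton, ?_, ?_, rfl⟩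
    · rintro _ ⟨x, rfl⟩; exact hsing x
    · rw [sUnion_range, iUnion_of_singleton]; exact huniv
  refine le_csInf hne ?_
  rintro c ⟨F, hFI, hF, rfl⟩
  by_contra hlt
  rw [not_le] at hlt
  obtain ⟨B, hB⟩ := h (Subtype.val ⁻¹' F)
    ((mk_preimage_of_injective _ _ Subtype.val_injective).trans_lt hlt)
  exact hF (hdown B B.2 _ (sUnion_subset fun A hA => hB ⟨A, hFI hA⟩ hA))

theorem dom_cofI (I : Set (Set (ℕ → Bool))) : Dom (sub I) (cofI I) := by
  have hne : {c | ∃ F : Set (Set (ℕ → Bool)), F ⊆ I ∧ (∀ A ∈ I, ∃ B ∈ F, A ⊆ B) ∧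
      #F = c}.Nonempty := ⟨_, I, subset_rfl, fun A hA => ⟨A, hA, subset_rfl⟩, rfl⟩
  obtain ⟨F, hFI, hF, hc⟩ := csInf_mem hne
  refine ⟨Subtype.val ⁻¹' F, (mk_preimage_of_injective _ _ Subtype.val_injective).trans hc.le,
    fun A => ?_⟩
  obtain ⟨B, hB, hAB⟩ := hF A A.2
  exact ⟨⟨B, hFI hB⟩, hB, hAB⟩

theorem cofI_le (I : Set (Set (ℕ → Bool))) {κ : Cardinal} (h : Dom (sub I) κ) : cofI I ≤ κ := by
  obtain ⟨D, hD, h⟩ := h
  have key : cofI I ≤ #(Subtype.val '' D) := by
    refine csInf_le' ⟨Subtype.val '' D, ?_, ?_, rfl⟩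
    · rintro _ ⟨A, -, rfl⟩; exact A.2
    · intro A hA
      obtain ⟨B, hB, hAB⟩ := h ⟨A, hA⟩
      exact ⟨B, mem_image_of_mem _ hB, hAB⟩
  exact key.trans (mk_image_le.trans hD)

theorem aleph0_le_of_dom_evle {κ : Cardinal} (h : Dom evle κ) : ℵ₀ ≤ κ := by
  obtain ⟨D, hD, h⟩ := h
  refine le_trans ?_ hD
  rw [aleph0_le_mk_iff, infinite_coe_iff]
  intro hfin
  obtain ⟨g, hg, hx⟩ := h (fun n => ∑ g ∈ hfin.toFinset, g n + 1)
  obtain ⟨n, hn⟩ := hx.exists
  have : g n ≤ ∑ g ∈ hfin.toFinset, g n :=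
    Finset.single_le_sum (f := fun g : ℕ → ℕ => g n) (fun _ _ => Nat.zero_le _)
      (hfin.mem_toFinset.2 hg)
  simp only at hn
  omega

/-- every number beyond `t N` lies in a block `[t n, t (n+1))` with `n ≥ N` -/
theorem exists_block {t : ℕ → ℕ} (ht : StrictMono t) (N m : ℕ) (hm : t N ≤ m) :
    ∃ n, N ≤ n ∧ t n ≤ m ∧ m < t (n + 1) := by
  classical
  have hex : ∃ n, m < t (n + 1) := ⟨m, (Nat.lt_succ_self m).trans_le (ht.id_le _)⟩
  have h1 := Nat.find_spec hex
  refine ⟨Nat.find hex, ?_, ?_, h1⟩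
  · by_contra hlt
    have : t (Nat.find hex + 1) ≤ t N := ht.monotone (by omega)
    omega
  · rcases Nat.eq_zero_or_pos (Nat.find hex) with h0 | h0
    · rw [h0]; exact (ht.monotone (Nat.zero_le N)).trans hm
    · have := Nat.find_min hex (Nat.sub_lt h0 one_pos)
      rw [show Nat.find hex - 1 + 1 = Nat.find hex by omega] at this
      omega

theorem block_unique {t : ℕ → ℕ} (ht : StrictMono t) {n n' m : ℕ} (h1 : t n ≤ m)
    (h2 : m < t (n + 1)) (h1' : t n' ≤ m) (h2' : m < t (n' + 1)) : n = n' := by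
  have a := ht.lt_iff_lt.1 (h1.trans_lt h2')
  have b := ht.lt_iff_lt.1 (h1'.trans_lt h2)
  omega

theorem mem_limSet {σ : ℕ → List Bool} {y : ℕ → Bool} :
    y ∈ limSet σ ↔ ∃ᶠ n in atTop, IsInit (σ n) y := by
  rw [Nat.frequently_atTop_iff_infinite]; rfl

theorem isInit_iff {s : List Bool} {y : ℕ → Bool} :
    IsInit s y ↔ ∀ p < s.length, s.getD p false = y p := by
  constructor
  · intro h p hp
    rw [← h ⟨p, hp⟩]
    simp [hp]
  · intro h i
    rw [← h i i.2]
    simp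

/-- the initial segment of length `L` -/
def seg (L : ℕ) (z : ℕ → Bool) : List Bool := (List.range L).map z

@[simp] theorem length_seg (L : ℕ) (z : ℕ → Bool) : (seg L z).length = L := by simp [seg]

theorem isInit_seg {L : ℕ} {z y : ℕ → Bool} : IsInit (seg L z) y ↔ ∀ p < L, z p = y p := by
  rw [isInit_iff, length_seg]
  refine forall_congr' fun p => forall_congr' fun hp => ?_
  simp [seg, hp]

theorem LL_iff {f : ℕ → ℕ} {σ : ℕ → List Bool} :
    LL f (fun n => (σ n).length) ↔ ∀ k, ∀ᶠ i in atTop, f (i ^ k) ≤ (σ i).length := by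
  simp only [LL, eventually_atTop]

end Pool.Agent.MP_9fd5aa_lc

end

-- part MP_9fd5aa_lc.Enum
section

/-! Basic facts on Yorioka ideals, and the enumeration lemma. -/

namespace Pool.Agent.MP_9fd5aa_lc

open Cardinal Set Filter

theorem yorioka_down (f : ℕ → ℕ) : ∀ A ∈ yorioka f, ∀ B ⊆ A, B ∈ yorioka f := by
  rintro A ⟨σ, h1, h2⟩ B hB
  exact ⟨σ, h1, hB.trans h2⟩

theorem ev_pow_self {f : ℕ → ℕ} (hf : Monotone f) (k : ℕ) :
    ∀ᶠ i in atTop, f (i ^ k) ≤ f (i ^ i) := by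
  filter_upwards [eventually_ge_atTop (k + 1)] with i hi
  exact hf (Nat.pow_le_pow_right (by omega) (by omega))

theorem yorioka_singleton {f : ℕ → ℕ} (hf : Monotone f) (x : ℕ → Bool) : {x} ∈ yorioka f := by
  refine ⟨fun n => seg (f (n ^ n)) x, LL_iff.2 fun k => ?_, ?_⟩
  · simpa only [length_seg, eventually_atTop] using ev_pow_self hf k
  · rintro _ rfl
    exact mem_limSet.2 (Frequently.of_forall fun n => isInit_seg.2 fun _ _ => rfl)

theorem univ_not_mem_yorioka {f : ℕ → ℕ} (hf : StrictMono f) : Set.univ ∉ yorioka f := by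
  rintro ⟨σ, h1, h2⟩
  have h3 := mem_limSet.1 (h2 (mem_univ fun i => !((σ i).getD i false)))
  obtain ⟨i, hi, h4, h5⟩ := (h3.and_eventually ((LL_iff.1 h1 2).and (eventually_ge_atTop 2))).exists
  have h6 : i ^ 2 ≤ f (i ^ 2) := hf.id_le _
  have h7 : i < (σ i).length := by nlinarith
  have := isInit_iff.1 hi i h7
  simp at this

theorem enum {f : ℕ → ℕ} (hf : Monotone f) (S : ℕ → Finset (List Bool)) (C : ℕ → ℕ)
    (hC : StrictMono C) (hcard : ∀ n, C n + (S n).card ≤ C (n + 1))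
    (hlen : ∀ k, ∀ᶠ n in atTop, ∀ s ∈ S n, f (C (n + 1) ^ k) ≤ s.length) :
    {y | ∃ᶠ n in atTop, ∃ s ∈ S n, IsInit s y} ∈ yorioka f := by
  classical
  let σ : ℕ → List Bool := fun i =>
    if h : ∃ n, C n ≤ i ∧ i < C n + (S n).card then
      (S h.choose).toList.getD (i - C h.choose) [] else seg (f (i ^ i)) fun _ => false
  have hσ1 : ∀ n, ∀ s ∈ S n, ∃ i, C n ≤ i ∧ σ i = s := by
    intro n s hs
    obtain ⟨r, hr, hrs⟩ := List.getElem_of_mem (Finset.mem_toList.2 hs)
    rw [Finset.length_toList] at hr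
    have hex : ∃ m, C m ≤ C n + r ∧ C n + r < C m + (S m).card := ⟨n, by omega, by omega⟩
    have hm : hex.choose = n := by
      obtain ⟨a, b⟩ := hex.choose_spec
      exact block_unique hC a (b.trans_le (hcard _)) (Nat.le_add_right _ r)
        (lt_of_lt_of_le (by omega) (hcard n))
    refine ⟨C n + r, by omega, ?_⟩
    simp only [σ, dif_pos hex, hm, Nat.add_sub_cancel_left]
    rw [← hrs]
    simp [hr]
  have hσ2 : ∀ i, (∃ n, C n ≤ i ∧ i < C (n + 1) ∧ σ i ∈ S n) ∨ (σ i).length = f (i ^ i) := by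
    intro i
    by_cases h : ∃ n, C n ≤ i ∧ i < C n + (S n).card
    · left
      obtain ⟨a, b⟩ := h.choose_spec
      refine ⟨h.choose, a, b.trans_le (hcard _), ?_⟩
      simp only [σ, dif_pos h]
      have hlt : i - C h.choose < (S h.choose).toList.length := by
        rw [Finset.length_toList]; omega
      rw [List.getD_eq_getElem _ _ hlt]
      exact Finset.mem_toList.1 (List.getElem_mem hlt)
    · right
      simp only [σ, dif_neg h, length_seg]
  refine ⟨σ, LL_iff.2 fun k => ?_, fun y hy => mem_limSet.2 ?_⟩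
  · obtain ⟨N, hN⟩ := eventually_atTop.1 (hlen k)
    filter_upwards [ev_pow_self hf k, eventually_ge_atTop (C N)] with i h1 h2
    rcases hσ2 i with ⟨n, a, b, c⟩ | h
    · have hn : N ≤ n := by
        have := hC.lt_iff_lt.1 (h2.trans_lt b)
        omega
      exact (hf (Nat.pow_le_pow_left b.le k)).trans (hN n hn _ c)
    · rw [h]; exact h1
  · rw [frequently_atTop]
    intro N
    obtain ⟨n, hn, s, hs, hsy⟩ := frequently_atTop.1 hy N
    obtain ⟨i, hi, rfl⟩ := hσ1 n s hs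
    exact ⟨i, hn.trans ((hC.id_le n).trans hi), hsy⟩

end Pool.Agent.MP_9fd5aa_lc

end

-- part MP_9fd5aa_lc.Key
section

/-! Dense coding of sequences of words by members of a Yorioka ideal. -/

namespace Pool.Agent.MP_9fd5aa_lc

open Cardinal Set Filter

/-- number of free bits at stage `n` -/
def ll (n : ℕ) : ℕ := 3 * (Nat.log 2 n + 1)

/-- the points that copy `x n` after the free bits for infinitely many `n` -/
def AX (x : ℕ → ℕ → Bool) (G : ℕ → ℕ) : Set (ℕ → Bool) :=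
  {y | ∃ᶠ n in atTop, ∀ p < G n, y (ll n + p) = x n p}

theorem gap {f : ℕ → ℕ} (hf : StrictMono f) {n a j c : ℕ} (hn : n ≠ 0) (h : a + 3 * n + j < c) :
    ll n + f a + j < f c := by
  have h1 := Nat.log_lt_self 2 hn
  have h2 := hf.add_le_nat (c - a) a
  rw [Nat.sub_add_cancel (by omega)] at h2
  unfold ll
  omega

theorem AX_mem {f G : ℕ → ℕ} (hf : Monotone f) (hG : LL f G) (x : ℕ → ℕ → Bool) :
    AX x G ∈ yorioka f := by
  classical
  let S : ℕ → Finset (List Bool) := fun n => Finset.univ.image fun v : Fin (ll n) → Bool =>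
    seg (ll n + G n) fun q => if h : q < ll n then v ⟨q, h⟩ else x n (q - ll n)
  refine yorioka_down f _ (enum hf S (fun n => 8 * (n + 1) ^ 4) (fun a b h => ?_) (fun n => ?_)
    fun k => ?_) _ fun y hy => Frequently.mono hy fun n hn => ?_
  · exact Nat.mul_lt_mul_of_pos_left (Nat.pow_lt_pow_left (by omega) (by norm_num)) (by norm_num)
  · have h1 : (S n).card ≤ 2 ^ ll n := Finset.card_image_le.trans (by simp only [Finset.card_univ, Fintype.card_pi, Fintype.card_bool, Finset.prod_const, Fintype.card_fin, Std.le_refl])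
    have h2 : 2 ^ ll n ≤ (2 * (n + 1)) ^ 3 := by
      rw [ll, pow_mul']
      exact Nat.pow_le_pow_left
        (by rw [pow_succ']; exact Nat.mul_le_mul_left _ (Nat.pow_log_le_add_one 2 n)) 3
    have h3 : 8 * (n + 1) ^ 4 + (2 * (n + 1)) ^ 3 ≤ 8 * (n + 1 + 1) ^ 4 := by
      generalize n + 1 = m
      ring_nf
      omega
    omega
  · obtain ⟨m, hm⟩ := hG (11 * k)
    filter_upwards [eventually_ge_atTop m, eventually_ge_atTop 2] with n h1 h2 s hs
    obtain ⟨v, -, rfl⟩ := Finset.mem_image.1 hs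
    rw [length_seg]
    refine le_trans (hf ?_) ((hm n h1).trans (Nat.le_add_left _ _))
    rw [pow_mul]
    refine Nat.pow_le_pow_left ?_ k
    calc 8 * (n + 1 + 1) ^ 4 ≤ n ^ 3 * (n ^ 2) ^ 4 :=
          Nat.mul_le_mul (Nat.pow_le_pow_left h2 3) (Nat.pow_le_pow_left (by nlinarith) 4)
      _ = n ^ 11 := by ring
  · refine ⟨_, Finset.mem_image_of_mem _ (Finset.mem_univ fun q : Fin (ll n) => y q),
      isInit_seg.2 fun q hq => ?_⟩
    split_ifs with h
    · rfl
    · rw [← hn _ (by omega), Nat.add_sub_cancel' (not_lt.1 h)]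

theorem exists_sparse (P : ℕ → Prop) (d : ℕ → ℕ) (h : ∃ᶠ n in atTop, P n) :
    ∃ u : ℕ → ℕ, (∀ t, P (u t)) ∧ ∀ t, d (u t) < u (t + 1) := by
  choose nx h1 h2 using frequently_atTop'.1 h
  exact ⟨fun t => Nat.rec (nx 0) (fun _ m => nx (d m)) t,
    fun t => by cases t <;> exact h2 _, fun t => h1 _⟩

theorem exists_avoid (s : ℕ → ℕ → Bool) {n lam : ℕ} (h : n < 2 ^ lam) :
    ∃ z : ℕ → Bool, ∀ i < n, ∃ j < lam, z j ≠ s i j := by
  classical
  obtain ⟨v, -, hv⟩ := Finset.exists_mem_notMem_of_card_lt_card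
    (s := (Finset.range n).image fun i (j : Fin lam) => s i j) (t := Finset.univ)
    (Finset.card_image_le.trans_lt (by simpa only [Finset.card_range, Finset.card_univ, Fintype.card_pi, Fintype.card_bool, Finset.prod_const, Fintype.card_fin] using h))
  refine ⟨fun j => if h : j < lam then v ⟨j, h⟩ else false, fun i hi => ?_⟩
  by_contra hc
  push Not at hc
  refine hv (Finset.mem_image.2 ⟨i, Finset.mem_range.2 hi, funext fun j => ?_⟩)
  simpa using (hc j j.2).symm

/-- stages at which the code `τ` misses the words of `AX x G` -/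
def Bad (x : ℕ → ℕ → Bool) (G N : ℕ → ℕ) (τ : ℕ → List Bool) (n : ℕ) : Prop :=
  n ≤ N n ∧ (∀ i, N n ≤ i → ll n + G n + 2 * (i - N n) < (τ i).length) ∧
    ∀ i, n ≤ i → i < N n →
      ∃ p < G n, ll n + p < (τ i).length ∧ (τ i).getD (ll n + p) false ≠ x n p

theorem key {x : ℕ → ℕ → Bool} {G N : ℕ → ℕ} {τ : ℕ → List Bool}
    (h : ∃ᶠ n in atTop, Bad x G N τ n) : ¬ AX x G ⊆ limSet τ := by
  classical
  intro hsub
  obtain ⟨u, hu, hd⟩ := exists_sparse _ (fun n => N n + 2 ^ (ll n + G n)) h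
  obtain ⟨E, hE⟩ : ∃ E : ℕ → ℕ, ∀ t, E t = ll (u t) + G (u t) := ⟨_, fun _ => rfl⟩
  obtain ⟨lam, hlam⟩ : ∃ lam : ℕ → ℕ, ∀ t, lam t = Nat.log 2 (u (t + 1)) + 1 := ⟨_, fun _ => rfl⟩
  have h1 : ∀ t, ll (u (t + 1)) = 3 * lam t := fun t => by rw [hlam, ll]
  have h2 : ∀ t, E t < lam t := fun t => by
    rw [hlam, hE]
    exact Nat.lt_succ_of_le (Nat.le_log_of_pow_le one_lt_two
      ((Nat.le_add_left _ _).trans (hd t).le))
  have h3 : ∀ t, N (u t) < u (t + 1) := fun t => (Nat.le_add_right _ _).trans_lt (hd t)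
  have hEm : StrictMono E := strictMono_nat_of_lt_succ fun t => by
    have := h1 t; have := h2 t; have := hE (t + 1); omega
  have hNm : StrictMono fun t => N (u t) := strictMono_nat_of_lt_succ fun t =>
    (h3 t).trans_le (hu _).1
  have hum : StrictMono u := strictMono_nat_of_lt_succ fun t => (hu t).1.trans_lt (h3 t)
  choose z hz using fun t => exists_avoid (fun i j => (τ i).getD (E t + lam t + j) false)
    (n := u (t + 1)) (lam := lam t) (by rw [hlam]; exact Nat.lt_pow_succ_log_self one_lt_two _)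
  let c : ℕ → ℕ → Bool := fun t q =>
    if q < E t + lam t then !(τ (N (u t) + (q - E t))).getD q false
    else if q < 3 * lam t then z t (q - (E t + lam t)) else x (u (t + 1)) (q - 3 * lam t)
  obtain ⟨y, hy⟩ : ∃ y : ℕ → Bool, ∀ t q, E t ≤ q → q < E (t + 1) → y q = c t q :=
    ⟨fun q => if h : ∃ t, E t ≤ q ∧ q < E (t + 1) then c h.choose q else false, fun t q a b => by
      have h : ∃ t, E t ≤ q ∧ q < E (t + 1) := ⟨t, a, b⟩
      simp only [dif_pos h, block_unique hEm h.choose_spec.1 h.choose_spec.2 a b]⟩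
  have h4 : ∀ t, ∀ p < G (u (t + 1)), y (ll (u (t + 1)) + p) = x (u (t + 1)) p := fun t p hp => by
    have := h1 t; have := h2 t; have := hE (t + 1)
    rw [hy t _ (by omega) (by omega)]
    simp only [c]
    rw [if_neg (by omega), if_neg (by omega)]
    congr 1
    omega
  have hA : y ∈ AX x G := frequently_atTop.2 fun M =>
    ⟨u (M + 1), (Nat.le_succ M).trans (hum.id_le _), h4 M⟩
  obtain ⟨i, hi, hi0⟩ := ((mem_limSet.1 (hsub hA)).and_eventually
    (eventually_ge_atTop (N (u 0)))).exists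
  obtain ⟨t, -, a, b⟩ := exists_block hNm 0 i hi0
  have hi' := isInit_iff.1 hi
  have := h1 t; have := h2 t; have := hE (t + 1); have := hE t
  have h5 := (hu t).2.1 i a
  by_cases h6 : i < u (t + 1)
  · by_cases h7 : i - N (u t) < lam t
    · have h8 := hi' (E t + (i - N (u t))) (by omega)
      rw [hy t _ (by omega) (by omega)] at h8
      simp only [c] at h8
      rw [if_pos (by omega), Nat.add_sub_cancel_left, Nat.add_sub_cancel' a] at h8
      simp at h8
    · obtain ⟨j, hj, h8⟩ := hz t i h6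
      have h9 := hi' (E t + lam t + j) (by omega)
      rw [hy t _ (by omega) (by omega)] at h9
      simp only [c] at h9
      rw [if_neg (by omega), if_pos (by omega), Nat.add_sub_cancel_left] at h9
      exact h8 h9.symm
  · obtain ⟨p, hp, h7, h8⟩ := (hu (t + 1)).2.2 i (not_lt.1 h6) b
    exact h8 ((hi' _ h7).trans (h4 t p hp))

theorem LL.ev {x y : ℕ → ℕ} (h : LL x y) (k : ℕ) : ∀ᶠ i in atTop, x (i ^ k) ≤ y i :=
  eventually_atTop.2 (h k)

theorem LL.of_ev {x y : ℕ → ℕ} (h : ∀ k, ∀ᶠ i in atTop, x (i ^ k) ≤ y i) : LL x y :=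
  fun k => eventually_atTop.1 (h k)

/-- bounded localization with superpolynomial width is Tukey below `I_f` -/
theorem tuk_locB {f b h : ℕ → ℕ} (hf : StrictMono f) (k : ℕ)
    (hb : ∀ᶠ n in atTop, b n ≤ 2 ^ f (n ^ k)) (hh : LL id h) :
    Tuk (locB b h) (sub (yorioka f)) := by
  classical
  have hG : LL f fun n => f (h n) := .of_ev fun k => (hh.ev k).mono fun n hn => hf.monotone hn
  choose σ h1 h2 using fun B : yorioka f => B.2
  refine ⟨fun x => ⟨_, AX_mem hf.monotone hG fun n => (x.1 n).testBit⟩,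
    fun B => ⟨fun n => (Finset.range (h n)).image fun i =>
      Nat.ofBits fun p : Fin (f (n ^ k)) => (σ B i).getD (ll n + p) false,
      fun n => Finset.card_image_le.trans (by simp)⟩, fun x B hx => ?_⟩
  have h3 := not_frequently.1 fun h' => key (N := h) h' (hx.trans (h2 B))
  obtain ⟨m, hm⟩ := h1 B 2
  obtain ⟨m', hm'⟩ := h1 B (k + 2)
  filter_upwards [h3, hb, hh.ev 1, hh.ev k, eventually_ge_atTop m, eventually_ge_atTop m',
    eventually_ge_atTop 5] with n a1 a2 a3 a4 a5 a6 a7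
  rw [pow_one] at a3
  by_contra hc
  refine a1 ⟨a3, fun i hi => ?_, fun i hi hi' => ?_⟩
  · refine lt_of_lt_of_le (gap hf (by omega) ?_) (hm i (a5.trans (a3.trans hi)))
    obtain ⟨j, rfl⟩ := Nat.exists_eq_add_of_le hi
    rw [Nat.add_sub_cancel_left]
    simp only [id] at a3
    nlinarith only [a3, a7]
  · by_contra hn
    push Not at hn
    refine hc (Finset.mem_image.2 ⟨i, Finset.mem_range.2 hi', ?_⟩)
    rw [← Nat.mod_eq_of_lt ((x.2 n).trans_le a2), ← Nat.ofBits_testBit]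
    refine congrArg _ (funext fun p => hn p (p.2.trans_le (hf.monotone a4)) ?_)
    have h4 : 1 ≤ n ^ k := Nat.one_le_pow _ _ (by omega)
    have h5 := gap hf (n := n) (a := n ^ k) (j := 0) (c := n ^ (k + 2)) (by omega)
      (by
        have : 1 + 3 * n < n ^ 2 := by nlinarith only [a7]
        rw [pow_add]; nlinarith only [h4, this])
    have h6 : f (n ^ (k + 2)) ≤ (σ B i).length :=
      (hf.monotone (Nat.pow_le_pow_left hi (k + 2))).trans (hm' i (a6.trans hi))
    have := p.2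
    omega

theorem exists_slow : ∃ d : (ℕ → ℕ) → ℕ → ℕ, (∀ g K, ∀ᶠ n in atTop, K ≤ d g n) ∧
    ∀ g n D, n < g D → d g n ≤ D := by
  classical
  have hex : ∀ (g : ℕ → ℕ) (n : ℕ), ∃ k, n < g k ∨ n ≤ k := fun g n => ⟨n, Or.inr le_rfl⟩
  refine ⟨fun g n => Nat.find (hex g n), fun g K => ?_, fun g n D h => Nat.find_min' _ (Or.inl h)⟩
  filter_upwards [eventually_ge_atTop K, eventually_ge_atTop (∑ k ∈ Finset.range K, g k)]
    with n h1 h2
  by_contra hlt
  rw [not_le] at hlt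
  have h3 : g (Nat.find (hex g n)) ≤ ∑ k ∈ Finset.range K, g k :=
    Finset.single_le_sum (f := g) (fun _ _ => Nat.zero_le _) (Finset.mem_range.2 hlt)
  rcases Nat.find_spec (hex g n) with h | h <;> omega

/-- eventual domination is Tukey below `I_f` -/
theorem tuk_evle {f : ℕ → ℕ} (hf : StrictMono f) : Tuk evle (sub (yorioka f)) := by
  classical
  obtain ⟨d, hd1, hd2⟩ := exists_slow
  have hG : ∀ g, LL f fun n => f (n ^ d g n) := fun g => .of_ev fun k => by
    filter_upwards [hd1 g k, eventually_ge_atTop 1] with n h1 h2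
    exact hf.monotone (Nat.pow_le_pow_right h2 h1)
  choose σ h1 h2 using fun B : yorioka f => B.2
  choose m hm using h1
  refine ⟨fun g => ⟨_, AX_mem hf.monotone (hG g) fun _ _ => false⟩,
    fun B D => max D (m B (D + 2)), fun g B hg => ?_⟩
  obtain ⟨M, hM⟩ := eventually_atTop.1
    (not_frequently.1 fun h' => key (N := id) h' (hg.trans (h2 B)))
  filter_upwards [eventually_ge_atTop M, eventually_ge_atTop 5] with D a1 a2
  by_contra hlt
  have a3 := hd2 g _ D (not_le.1 hlt)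
  have a4 := le_max_left D (m B (D + 2))
  have a5 := le_max_right D (m B (D + 2))
  generalize max D (m B (D + 2)) = n at *
  refine hM n (a1.trans a4) ⟨le_rfl, fun i hi => ?_, fun i hi hi' => absurd hi (not_le.2 hi')⟩
  refine lt_of_lt_of_le (gap hf (by omega) ?_) (hm B _ i (a5.trans hi))
  have a6 : n ^ d g n ≤ i ^ D :=
    (Nat.pow_le_pow_right (by omega) a3).trans (Nat.pow_le_pow_left hi D)
  have a7 : 1 ≤ i ^ D := Nat.one_le_pow _ _ (by simp only [id] at hi; omega)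
  simp only [id] at hi ⊢
  obtain ⟨j, rfl⟩ := Nat.exists_eq_add_of_le hi
  rw [Nat.add_sub_cancel_left, pow_add]
  have a8 : 5 ≤ n := by omega
  have a9 : 1 + 3 * n + 2 * j < (n + j) ^ 2 := by nlinarith only [a2, a4]
  nlinarith only [a6, a7, a9]

/-- inclusion of the ideals gives domination after a polynomial change -/
theorem le_of_subset {f g : ℕ → ℕ} (hf : StrictMono f) (hg : Monotone g)
    (h : yorioka g ⊆ yorioka f) : ∃ k, ∀ᶠ n in atTop, f n ≤ g (n ^ k) := by
  classical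
  by_contra hc
  push Not at hc
  obtain ⟨u, hu, h1⟩ := extraction_forall_of_frequently hc
  obtain ⟨d, h2, h3⟩ : ∃ d : ℕ → ℕ, (∀ k, d (u k) = k) ∧ ∀ K, ∀ᶠ n in atTop, K ≤ d n := by
    refine ⟨fun n => if h : ∃ k, u k = n then h.choose else n, fun k => ?_, fun K => ?_⟩
    · have h : ∃ j, u j = u k := ⟨k, rfl⟩
      simp only [dif_pos h]
      exact hu.injective h.choose_spec
    · filter_upwards [eventually_ge_atTop (u K)] with n hn
      split_ifs with h
      · exact hu.le_iff_le.1 (hn.trans h.choose_spec.ge)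
      · exact (hu.id_le K).trans hn
  have hG : LL g fun n => g (n ^ d n) := .of_ev fun k => by
    filter_upwards [h3 k, eventually_ge_atTop 1] with n h4 h5
    exact hg (Nat.pow_le_pow_right h5 h4)
  obtain ⟨σ, h4, h5⟩ := h (AX_mem hg hG fun _ _ => false)
  obtain ⟨m, hm⟩ := h4 2
  refine key (N := id) (frequently_atTop.2 fun M => ?_) h5
  have a1 := hu.id_le (M + m + 5)
  have a2 := h1 (M + m + 5)
  have a3 := h2 (M + m + 5)
  simp only [id] at a1
  generalize u (M + m + 5) = n at *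
  refine ⟨n, by omega, le_rfl, fun i hi => ?_, fun i hi hi' => absurd hi (not_le.2 hi')⟩
  simp only [id] at hi ⊢
  have a4 := gap hf (n := n) (a := n) (j := 2 * (i - n)) (c := i ^ 2) (by omega) (by
    obtain ⟨j, rfl⟩ := Nat.exists_eq_add_of_le hi
    rw [Nat.add_sub_cancel_left]
    have : 5 ≤ n := by omega
    nlinarith only [a1])
  have a5 := hm i (by omega)
  simp only [a3] at a5 ⊢
  omega

end Pool.Agent.MP_9fd5aa_lc

end

-- part MP_9fd5aa_lc.Loc
section

/-! Reindexing, composition and block coding of localization systems; the two reductions. -/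

namespace Pool.Agent.MP_9fd5aa_lc

open Cardinal Set Filter

/-- properties of relational systems that pass down Tukey connections and sequential composition -/
def Closed (P : ∀ X Y : Type, (X → Y → Prop) → Prop) : Prop :=
  (∀ {X Y X' Y' : Type} {r : X → Y → Prop} {r' : X' → Y' → Prop}, Tuk r r' → P _ _ r' → P _ _ r) ∧
  ∀ {X Y X' Y' : Type} {r : X → Y → Prop} {r' : X' → Y' → Prop} (m : X → X'), P _ _ r' →
    (∀ y', P _ _ fun x y => r' (m x) y' → r x y) → P _ _ r

theorem closed_bdd (κ : Cardinal) : Closed fun _ _ r => Bdd r κ :=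
  ⟨fun h => h.bdd, fun m => Bdd.seq m⟩

theorem closed_dom {κ : Cardinal} (hκ : ℵ₀ ≤ κ) : Closed fun _ _ r => Dom r κ :=
  ⟨fun h => h.dom, fun m => Dom.seq hκ m⟩

theorem tuk_reindex {b b' h h' B : ℕ → ℕ} (hB : Function.Injective B) (h0 : ∀ n, 0 < b' n)
    (hb : ∀ᶠ j in atTop, b j ≤ b' (B j)) (hh : ∀ᶠ j in atTop, h' (B j) ≤ h j) :
    Tuk (locB b h) (locB b' h') := by
  classical
  refine ⟨fun x => ⟨fun n => Function.extend B x.1 0 n % b' n, fun n => Nat.mod_lt _ (h0 n)⟩,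
    fun φ => ⟨fun j => if h' (B j) ≤ h j then φ.1 (B j) else ∅, fun j => ?_⟩, fun x φ hx => ?_⟩
  · beta_reduce
    split_ifs with h1
    · exact (φ.2 _).trans h1
    · simp
  · filter_upwards [hB.nat_tendsto_atTop.eventually hx, hb, hh] with j h1 h2 h3
    simp only [hB.extend_apply, Nat.mod_eq_of_lt ((x.2 j).trans_le h2)] at h1
    simpa only [if_pos h3] using h1

theorem Closed.comp {P : ∀ X Y : Type, (X → Y → Prop) → Prop} (hP : Closed P) {b c h : ℕ → ℕ}
    (h0 : ∀ n, 0 < c n) (h1 : P _ _ (locB b c)) (h2 : P _ _ (locB c h)) : P _ _ (locB b h) := by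
  classical
  refine hP.2 id h1 fun φ => hP.1 ?_ h2
  refine ⟨fun x => ⟨fun n => (φ.1 n).toList.idxOf (x.1 n) % c n, fun n => Nat.mod_lt _ (h0 n)⟩,
    fun T => ⟨fun n => (T.1 n).image fun i => (φ.1 n).toList.getD i 0,
      fun n => Finset.card_image_le.trans (T.2 n)⟩, fun x T hx hφ => ?_⟩
  filter_upwards [hx, hφ] with n h3 h4
  have h5 := List.idxOf_lt_length_of_mem (Finset.mem_toList.2 h4)
  refine Finset.mem_image.2 ⟨_, h3, ?_⟩
  simp only [id] at h5
  rw [Nat.mod_eq_of_lt (h5.trans_le ((Finset.length_toList _).le.trans (φ.2 n))),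
    List.getD_eq_getElem _ _ h5, List.getElem_idxOf]

theorem tuk_block : Tuk (locB (fun n => 2 ^ n) id)
    (locB (fun j => (2 ^ 2 ^ (j + 1)) ^ 2 ^ (j + 1)) fun j => 2 ^ j) := by
  classical
  let m : {x : ℕ → ℕ // ∀ n, x n < 2 ^ n} → ∀ j, Fin ((2 ^ 2 ^ (j + 1)) ^ 2 ^ (j + 1)) :=
    fun x j => finFunctionFinEquiv fun i =>
      ⟨x.1 i, (x.2 i).trans_le (Nat.pow_le_pow_right two_pos i.2.le)⟩
  refine ⟨fun x => ⟨fun j => m x j, fun j => (m x j).2⟩,
    fun T => ⟨fun n => if n = 0 then ∅ else (T.1 (Nat.log 2 n)).image fun c =>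
      if h : ∃ x, (m x (Nat.log 2 n) : ℕ) = c then h.choose.1 n else 0, fun n => ?_⟩,
    fun x T hx => ?_⟩
  · beta_reduce
    split_ifs with h1
    · simp
    · exact Finset.card_image_le.trans ((T.2 _).trans (Nat.pow_log_le_self 2 h1))
  · have ht : Tendsto (Nat.log 2) atTop atTop := tendsto_atTop.2 fun K =>
      (eventually_ge_atTop (2 ^ K)).mono fun n hn => Nat.le_log_of_pow_le one_lt_two hn
    filter_upwards [ht.eventually hx, eventually_ne_atTop 0] with n h1 h2
    simp only [if_neg h2]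
    refine Finset.mem_image.2 ⟨_, h1, ?_⟩
    have h : ∃ y, (m y (Nat.log 2 n) : ℕ) = m x (Nat.log 2 n) := ⟨x, rfl⟩
    simp only [dif_pos h]
    exact congrArg Fin.val (congrFun (finFunctionFinEquiv.injective (Fin.ext h.choose_spec))
      ⟨n, Nat.lt_pow_succ_log_self one_lt_two n⟩)

theorem LL_log : LL id fun n => 2 ^ Nat.log 2 n ^ 2 := .of_ev fun k => by
  filter_upwards [eventually_ge_atTop (2 ^ (k + 1))] with n hn
  have h1 := Nat.le_log_of_pow_le one_lt_two hn
  refine (Nat.pow_le_pow_left (Nat.lt_pow_succ_log_self one_lt_two n).le k).trans ?_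
  rw [← pow_mul]
  exact Nat.pow_le_pow_right two_pos (by nlinarith)

theorem LL_exp : LL id fun n => 2 ^ n := .of_ev fun k => by
  have h : ∀ L, 4 ≤ L → L ^ 2 ≤ 2 ^ L := fun L hL => by
    induction L, hL using Nat.le_induction with
    | base => norm_num
    | succ L hL ih => rw [pow_succ 2]; nlinarith
  filter_upwards [LL_log.ev k, eventually_ge_atTop (2 ^ 4)] with n h1 h2
  exact h1.trans (Nat.pow_le_pow_right two_pos ((h _ (Nat.le_log_of_pow_le one_lt_two h2)).trans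
    (Nat.pow_log_le_self 2 (by omega))))

variable {P : ∀ X Y : Type, (X → Y → Prop) → Prop} {f g : ℕ → ℕ}

theorem Closed.upper (hP : Closed P) (hf : StrictMono f) (h : P _ _ (sub (yorioka f))) :
    P _ _ (locB (fun n => 2 ^ f n) id) := by
  have e : ∀ k, ∀ᶠ n in atTop, 2 ^ n ^ k ≤ 2 ^ f (n ^ k) := fun k =>
    .of_forall fun n => Nat.pow_le_pow_right two_pos (hf.id_le _)
  refine hP.comp (fun n => Nat.two_pow_pos n)
    (hP.1 (tuk_locB hf 1 (.of_forall fun n => by rw [pow_one]) LL_exp) h) (hP.1 tuk_block ?_)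
  refine hP.comp (c := fun j => 2 ^ j ^ 2) (fun n => Nat.two_pow_pos _)
    (hP.1 ((tuk_reindex (Nat.pow_right_injective le_rfl) (fun n => Nat.two_pow_pos _) ?_ ?_).trans
      (tuk_locB hf 3 (e 3) LL_log)) h) (hP.1 (tuk_locB hf 2 (e 2) LL_exp) h)
  · filter_upwards [eventually_ge_atTop 2] with j hj
    rw [← pow_mul, ← pow_add, ← pow_mul]
    exact Nat.pow_le_pow_right two_pos (Nat.pow_le_pow_right two_pos (by omega))
  · exact .of_forall fun j => by rw [Nat.log_pow one_lt_two]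

theorem Closed.stretch (hP : Closed P) (hf : StrictMono f)
    (h : P _ _ (locB (fun n => 2 ^ f n) id)) :
    P _ _ (locB (fun n => 2 ^ f (2 ^ f n)) id) :=
  hP.comp (fun _ => Nat.two_pow_pos _) (hP.1 (tuk_reindex (B := fun n => 2 ^ f n) (h' := id)
    ((Nat.pow_right_injective le_rfl).comp hf.injective) (fun _ => Nat.two_pow_pos _)
    (.of_forall fun _ => le_rfl) (.of_forall fun _ => le_rfl)) h) h

theorem Closed.lower (hP : Closed P) (hf : StrictMono f) (h1 : P _ _ evle)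
    (h2 : P _ _ (locB (fun n => 2 ^ f n) id)) : P _ _ (sub (yorioka f)) := by
  classical
  obtain ⟨d, hd1, hd2⟩ := exists_slow
  choose σ hσ hs using fun B : yorioka f => B.2
  choose t ht using hσ
  refine hP.2 t h1 fun γ => hP.1 ?_ (hP.stretch hf h2)
  obtain ⟨L, hL⟩ : ∃ L : ℕ → ℕ, ∀ n, L n = f (min (n ^ (d γ n - 1)) (2 ^ f n)) :=
    ⟨_, fun _ => rfl⟩
  have hB : ∀ T : Slalom id, {y | ∃ᶠ n in atTop,
      ∃ s ∈ (T.1 n).image fun c => seg (L n) c.testBit, IsInit s y} ∈ yorioka f := fun T => by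
    refine enum hf.monotone _ (fun n => n ^ 2) (fun a b h => Nat.pow_lt_pow_left h two_ne_zero)
      (fun n => ?_) fun k => ?_
    · have : ((T.1 n).image fun c => seg (L n) c.testBit).card ≤ n :=
        Finset.card_image_le.trans (T.2 n)
      linarith only [this]
    · filter_upwards [hd1 γ (4 * k + 1), LL_exp.ev (4 * k), eventually_ge_atTop 2]
        with n a1 a2 a3 s hs
      obtain ⟨c, -, rfl⟩ := Finset.mem_image.1 hs
      rw [length_seg, hL]
      have a4 : ((n + 1) ^ 2) ^ k ≤ n ^ (4 * k) := by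
        rw [pow_mul, show 4 = 2 * 2 from rfl, pow_mul]
        exact Nat.pow_le_pow_left (Nat.pow_le_pow_left (by nlinarith only [a3]) 2) k
      exact hf.monotone (a4.trans (le_min (Nat.pow_le_pow_right (by omega) (by omega))
        (a2.trans (Nat.pow_le_pow_right two_pos (hf.id_le n)))))
  refine ⟨fun A => ⟨fun n => Nat.ofBits fun p : Fin (L n) => (σ A n).getD p false, fun n =>
    (Nat.ofBits_lt_two_pow _).trans_le (Nat.pow_le_pow_right two_pos
      ((hL n).le.trans (hf.monotone (min_le_right _ _))))⟩, fun T => ⟨_, hB T⟩,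
    fun A T hT hγ y hy => ?_⟩
  obtain ⟨K, hK⟩ := eventually_atTop.1 hγ
  refine ((mem_limSet.1 (hs A hy)).and_eventually (hT.and (hd1 γ (K + 1)))).mono ?_
  rintro n ⟨a1, a2, a3⟩
  refine ⟨_, Finset.mem_image_of_mem _ a2, isInit_seg.2 fun p hp => ?_⟩
  have a4 : γ (d γ n - 1) ≤ n := not_lt.1 fun h => by have := hd2 γ n _ h; omega
  have a5 : L n ≤ (σ A n).length := (hL n).le.trans ((hf.monotone (min_le_left _ _)).trans
    (ht A _ n ((hK _ (by omega)).trans a4)))
  simp only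
  rw [Nat.testBit_ofBits_lt _ _ hp]
  exact isInit_iff.1 a1 p (hp.trans_le a5)

theorem Closed.mono (hP : Closed P) (hf : StrictMono f) (hg : StrictMono g)
    (hfg : ∀ᶠ n in atTop, f n ≤ g (2 ^ g n)) (h : P _ _ (sub (yorioka g))) :
    P _ _ (sub (yorioka f)) :=
  hP.lower hf (hP.1 (tuk_evle hg) h) (hP.1 (tuk_reindex Function.injective_id
    (fun _ => Nat.two_pow_pos _) (hfg.mono fun _ hn => Nat.pow_le_pow_right two_pos hn)
    (.of_forall fun _ => le_rfl)) (hP.stretch hg (hP.upper hg h)))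

theorem le_addI' (hf : StrictMono f) {κ : Cardinal} (h : Bdd (sub (yorioka f)) κ) :
    κ ≤ addI (yorioka f) :=
  le_addI _ (yorioka_down _) (yorioka_singleton hf.monotone) (univ_not_mem_yorioka hf) h

theorem add_formula (hf : StrictMono f) :
    addI (yorioka f) = min (bnum evle) (bnum (locB (fun n => 2 ^ f n) id)) := by
  refine le_antisymm (le_min (le_bnum (fun y => ⟨fun n => y n + 1, fun h => ?_⟩)
    ((tuk_evle hf).bdd (bdd_addI _))) (le_bnum (fun φ => ?_)
    ((closed_bdd _).upper hf (bdd_addI _)))) (le_addI' hf ((closed_bdd _).lower hf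
    ((bdd_bnum _).mono (min_le_left _ _)) ((bdd_bnum _).mono (min_le_right _ _))))
  · exact h.exists.elim fun n hn => Nat.not_succ_le_self _ hn
  · choose x h1 h2 using fun n => Finset.exists_mem_notMem_of_card_lt_card
      (s := φ.1 n) (t := Finset.range (2 ^ f n)) (by
        rw [Finset.card_range]
        exact (φ.2 n).trans_lt (Nat.lt_two_pow_self.trans_le
          (Nat.pow_le_pow_right two_pos (hf.id_le n))))
    exact ⟨⟨x, fun n => Finset.mem_range.1 (h1 n)⟩, fun h => h.exists.elim fun n hn => h2 n hn⟩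

theorem cof_formula (hf : StrictMono f) :
    cofI (yorioka f) = max (dnum evle) (dnum (locB (fun n => 2 ^ f n) id)) := by
  have h1 := (tuk_evle hf).dom (dom_cofI _)
  have h2 : Dom evle (dnum evle) := dom_dnum fun x => ⟨x, .of_forall fun _ => le_rfl⟩
  refine le_antisymm (cofI_le _ ((closed_dom ((aleph0_le_of_dom_evle h2).trans
    (le_max_left _ _))).lower hf (h2.mono (le_max_left _ _))
    ((dom_dnum fun x => ⟨⟨fun n => if n = 0 then ∅ else {x.1 n}, fun n => ?_⟩, ?_⟩).mono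
      (le_max_right _ _)))) (max_le (dnum_le h1)
    (dnum_le ((closed_dom (aleph0_le_of_dom_evle h1)).upper hf (dom_cofI _))))
  · filter_upwards [eventually_ne_atTop 0] with n hn
    simp [hn]
  · beta_reduce
    split_ifs with h
    · simp
    · simpa using Nat.one_le_iff_ne_zero.2 h

theorem add_cof_mono (hf : StrictMono f) (hg : StrictMono g)
    (h : yorioka g ⊆ yorioka f ∨ ∀ᶠ n in atTop, f n ≤ g (2 ^ g n)) :
    addI (yorioka g) ≤ addI (yorioka f) ∧ cofI (yorioka f) ≤ cofI (yorioka g) := by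
  have hfg : ∀ᶠ n in atTop, f n ≤ g (2 ^ g n) := h.elim (fun h => by
    obtain ⟨k, hk⟩ := le_of_subset hf hg.monotone h
    filter_upwards [hk, LL_exp.ev k] with n h1 h2
    exact h1.trans (hg.monotone (h2.trans (Nat.pow_le_pow_right two_pos (hg.id_le n))))) id
  exact ⟨le_addI' hf ((closed_bdd _).mono hf hg hfg (bdd_addI _)), cofI_le _ ((closed_dom
    (aleph0_le_of_dom_evle ((tuk_evle hg).dom (dom_cofI _)))).mono hf hg hfg (dom_cofI _))⟩

end Pool.Agent.MP_9fd5aa_lc

end
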